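import Pool.Agent.W611.RO.Stms

/-!
# Determinant bound (RO-DET)
-/

set_option autoImplicit false
open scoped ComplexConjugate InnerProductSpace Topology
open Filter MeasureTheory NormedSpace

namespace Pool.Agent.W253.RO
open Pool.Agent.W611.RO Pool.Agent.H712R5.BO

section abs
variable {A : Type} [CStarAlgebra A]

theorem spec_pos {δ : ℝ} (hδ : 0 < δ) (S : A) :
    ∀ x ∈ spectrum ℝ (algebraMap ℝ A δ + star S * S), x ≠ 0 := by
  intro x hx
  rw [← spectrum.singleton_add_eq] at hx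
  obtain ⟨y, hy, z, hz, rfl⟩ := hx
  rw [Set.mem_singleton_iff] at hy
  have := spectrum_star_mul_self_nonneg (b := S) z hz
  simp only
  rw [hy]
  intro h
  linarith

theorem sta_cont (α : A →⋆ₐ[ℂ] A) : Continuous α := by
  refine AddMonoidHomClass.continuous_of_bound α 1 fun a => ?_
  rw [one_mul]
  exact NonUnitalStarAlgHom.norm_apply_le α a

theorem log_comm (α : A →⋆ₐ[ℂ] A) {δ : ℝ} (hδ : 0 < δ) (S : A) :
    α (CFC.log (algebraMap ℝ A δ + star S * S)) =
      CFC.log (algebraMap ℝ A δ + star (α S) * α S) := by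
  have h1 : α (algebraMap ℝ A δ + star S * S) = algebraMap ℝ A δ + star (α S) * α S := by
    rw [map_add, map_mul, map_star]
    congr 1
    rw [Algebra.algebraMap_eq_smul_one]
    have : (δ • (1 : A)) = ((δ : ℂ) • (1 : A)) := by
      rw [Complex.coe_smul]
    rw [this, map_smul, map_one]
  rw [← h1]
  unfold CFC.log
  have hsa : IsSelfAdjoint (algebraMap ℝ A δ + star S * S) :=
    (IsSelfAdjoint.algebraMap A (IsSelfAdjoint.all δ)).add (IsSelfAdjoint.star_mul_self S)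
  refine StarAlgHomClass.map_cfc (S := ℂ) α Real.log _ ?_ (sta_cont α) hsa (hsa.map _)
  refine Real.continuousOn_log.mono ?_
  intro x hx
  exact spec_pos hδ S x hx

/-- the polynomial -/
noncomputable def Phi {G : Type} (F : Finset G) (χ : G → ℤ) (N : ℤ) (X : G → A) (c w : ℂ) : A :=
  ∑ g ∈ F, w ^ ((N - χ g).toNat) • X g - (c * w ^ N.toNat) • (1 : A)

theorem Phi_diff {G : Type} (F : Finset G) (χ : G → ℤ) (N : ℤ) (X : G → A) (c : ℂ) :
    Differentiable ℂ (Phi F χ N X c) := by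
  unfold Phi
  refine Differentiable.sub ?_ ?_
  · refine Differentiable.fun_sum fun g _ => ?_
    exact (differentiable_pow _).smul_const _
  · exact ((differentiable_const c).mul (differentiable_pow _)).smul_const _

theorem Phi_one {G : Type} (F : Finset G) (χ : G → ℤ) (N : ℤ) (X : G → A) (c : ℂ) :
    Phi F χ N X c 1 = ∑ g ∈ F, X g - c • (1 : A) := by
  simp [Phi]

theorem Phi_zero {G : Type} (F : Finset G) (χ : G → ℤ) (g₀ : G) (hg₀ : g₀ ∈ F)
    (hpos : 0 < χ g₀) (hlt : ∀ g ∈ F, g ≠ g₀ → χ g < χ g₀) (X : G → A) (c : ℂ) :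
    Phi F χ (χ g₀) X c 0 = X g₀ := by
  classical
  unfold Phi
  rw [Finset.sum_eq_single g₀]
  · have h1 : (χ g₀ - χ g₀).toNat = 0 := by simp
    have h2 : (χ g₀).toNat ≠ 0 := by omega
    rw [h1, pow_zero, one_smul, zero_pow h2, mul_zero, zero_smul, sub_zero]
  · intro g hg hne
    have := hlt g hg hne
    have h2 : (χ g₀ - χ g).toNat ≠ 0 := by omega
    rw [zero_pow h2, zero_smul]
  · intro h
    exact absurd hg₀ h

theorem exp_toNat (t : ℝ) (m : ℤ) (hm : 0 ≤ m) :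
    Complex.exp (t * Complex.I) ^ m.toNat = Complex.exp (t * m * Complex.I) := by
  rw [← Complex.exp_nat_mul]
  congr 1
  have : ((m.toNat : ℤ) : ℂ) = (m : ℂ) := by rw [Int.toNat_of_nonneg hm]
  have h2 : ((m.toNat : ℕ) : ℂ) = (m : ℂ) := by rw [← this]; norm_cast
  rw [h2]
  ring

theorem Phi_rot {G : Type} (F : Finset G) (χ : G → ℤ) (N : ℤ) (hN : 0 ≤ N)
    (hle : ∀ g ∈ F, χ g ≤ N) (X : G → A) (c : ℂ) (t : ℝ) (α : A →⋆ₐ[ℂ] A)
    (hα : ∀ g ∈ F, α (X g) = Complex.exp (((-t : ℝ) : ℂ) * (χ g : ℂ) * Complex.I) • X g) (w : ℂ) :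
    Phi F χ N X c (Complex.exp (t * Complex.I) * w) =
      Complex.exp (t * N * Complex.I) • α (Phi F χ N X c w) := by
  unfold Phi
  rw [map_sub, map_sum, smul_sub, Finset.smul_sum]
  congr 1
  · refine Finset.sum_congr rfl fun g hg => ?_
    rw [map_smul, hα g hg, smul_smul, smul_smul, mul_pow, exp_toNat t _ (by have := hle g hg; omega)]
    congr 1
    rw [mul_right_comm (Complex.exp (t * N * Complex.I)), ← Complex.exp_add]
    congr 2
    push_cast
    ring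
  · rw [map_smul, map_one, smul_smul, mul_pow, exp_toNat t N hN]
    congr 1
    ring

theorem det_abs (hMONO : P_MONO) (τ : A →L[ℂ] ℂ) (hτ : TrSt τ) {G : Type} (F : Finset G)
    (χ : G → ℤ) (g₀ : G) (hg₀ : g₀ ∈ F) (hpos : 0 < χ g₀)
    (hlt : ∀ g ∈ F, g ≠ g₀ → χ g < χ g₀) (X : G → A)
    (hα : ∀ t : ℝ, ∃ α : A →⋆ₐ[ℂ] A, (∀ a, τ (α a) = τ a) ∧
      ∀ g ∈ F, α (X g) = Complex.exp (t * (χ g : ℂ) * Complex.I) • X g)
    (c : ℂ) (k : ℕ) (δ : ℝ) (hδ : 0 < δ) :
    (τ (CFC.log (algebraMap ℝ A δ + star (X g₀ ^ k) * X g₀ ^ k))).re ≤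
      (τ (CFC.log (algebraMap ℝ A δ + star ((∑ g ∈ F, X g - c • (1 : A)) ^ k)
        * (∑ g ∈ F, X g - c • (1 : A)) ^ k))).re := by
  have hle : ∀ g ∈ F, χ g ≤ χ g₀ := by
    intro g hg
    by_cases h : g = g₀
    · rw [h]
    · exact (hlt g hg h).le
  have h1 := hMONO A τ hτ (fun w => Phi F χ (χ g₀) X c w ^ k)
    ((Phi_diff F χ (χ g₀) X c).pow k) ?_ δ hδ
  · simp only [Phi_one, Phi_zero F χ g₀ hg₀ hpos hlt] at h1
    exact h1
  · intro δ t w hδ
    obtain ⟨α, hτα, hαX⟩ := hα (-t)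
    have h2 := Phi_rot F χ (χ g₀) hpos.le hle X c t α hαX w
    rw [h2, smul_pow, star_smul, smul_mul_smul_comm]
    have h3 : star (Complex.exp (t * (χ g₀ : ℂ) * Complex.I) ^ k) *
        Complex.exp (t * (χ g₀ : ℂ) * Complex.I) ^ k = 1 := by
      rw [star_pow, ← mul_pow]
      have h4 : star (Complex.exp (t * (χ g₀ : ℂ) * Complex.I)) *
          Complex.exp (t * (χ g₀ : ℂ) * Complex.I) = 1 := by
        have h5 : ‖Complex.exp (t * (χ g₀ : ℂ) * Complex.I)‖ = 1 := by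
          have : (t : ℂ) * (χ g₀ : ℂ) * Complex.I = ((t * χ g₀ : ℝ) : ℂ) * Complex.I := by
            push_cast; ring
          rw [this, Complex.norm_exp_ofReal_mul_I]
        rw [← starRingEnd_apply, mul_comm, Complex.mul_conj, Complex.normSq_eq_norm_sq, h5]
        simp
      rw [h4, one_pow]
    rw [h3, one_smul, ← map_pow, ← log_comm α hδ, hτα]

end abs

theorem t_DET (hTR : P_TR) (hMONO : P_MONO) (hROT : P_ROT) (hLEAD : P_LEAD) : P_DET := by
  intro G Ω H _ _ _ _ _ _ _ P _ b L hL hmp χ hχ F a g₀ hg₀ hpos hlt X hX ham hane haint c k δ hδ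
  refine (hLEAD G Ω H P b L hL hmp g₀ (a g₀) (X g₀) (hX g₀ hg₀) ham hane haint k δ hδ).trans ?_
  refine det_abs hMONO (tau P b L) (hTR G Ω H P b L hL hmp) F χ g₀ hg₀ hpos hlt X ?_ c k δ hδ
  intro t
  obtain ⟨α, h1, h2⟩ := hROT G Ω H P b L hL χ hχ t
  exact ⟨α, h1, fun g hg => h2 g (a g) (X g) (hX g hg)⟩

end Pool.Agent.W253.RO
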