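import Pool.Agent.W611.RO.Stms

/-!
# The theorem in terms of a Hilbert basis (RO-MAINB)
-/

set_option autoImplicit false
open scoped ComplexConjugate InnerProductSpace Topology
open Filter MeasureTheory NormedSpace

namespace Pool.Agent.W253.RO
open Pool.Agent.W611.RO Pool.Agent.H712R5.BO

theorem clm_ext {G H : Type} [NormedAddCommGroup H] [InnerProductSpace ℂ H] [CompleteSpace H]
    (b : HilbertBasis G ℂ H) (S T : H →L[ℂ] H) (h : ∀ k, S (b k) = T (b k)) : S = T := by
  have hd : (Submodule.span ℂ (Set.range b)).topologicalClosure = ⊤ := b.dense_span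
  have hd' : Dense ((Submodule.span ℂ (Set.range b) : Submodule ℂ H) : Set H) := by
    rw [← Submodule.dense_iff_topologicalClosure_eq_top] at hd
    exact hd
  refine ContinuousLinearMap.ext_on (s := Set.range b) hd' ?_
  rintro _ ⟨k, rfl⟩
  exact h k

theorem total {G H : Type} [NormedAddCommGroup H] [InnerProductSpace ℂ H] [CompleteSpace H]
    (b : HilbertBasis G ℂ H) (x : H) (h : ∀ r, ⟪x, b r⟫_ℂ = 0) : x = 0 := by
  have h1 : b.repr x = 0 := by
    ext k
    rw [b.repr_apply_apply, ← inner_conj_symm, h k, map_zero]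
    rfl
  exact b.repr.map_eq_zero_iff.1 h1

theorem hasHyp_of_smul {H : Type} [NormedAddCommGroup H] [NormedSpace ℂ H] (T : H →L[ℂ] H) (c : ℂ)
    (h : HasHyp (c • T)) : HasHyp T := by
  obtain ⟨V, h1, h2, h3, h4⟩ := h
  refine ⟨V, h1, h2, h3, fun R hR x hx => h4 R ?_ x hx⟩
  rw [mul_smul_comm, smul_mul_assoc, hR]

theorem t_MAINB (hTR : P_TR) (hN2 : P_N2) (hERG : P_ERG) (hABS : P_ABS) (hUNI : P_UNI)
    (hWRD : P_WRD) (hDET : P_DET) : P_MAINB := by
  intro G Ω H _ _ _ _ _ _ _ P _ b herg χ hχ F a g₀ R ham haR hg₀ hpos hlt hane haint T hT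
  classical
  -- the left regular representation
  have hL' : ∀ h : G, ∃ U : unitary (H →L[ℂ] H), ∀ k, (U : H →L[ℂ] H) (b k) = b (h * k) := by
    intro h
    obtain ⟨U, hU⟩ := (hUNI G H b (Equiv.mulLeft h) (fun _ => 1)).1 (by simp)
    refine ⟨U, fun k => ?_⟩
    rw [hU k, one_smul]
    rfl
  choose L hLk using hL'
  have hL : Reg b L := hLk
  set κ : ℝ := ∫ ω, Real.log ‖a g₀ ω‖ ∂P with hκ
  set e : ℂ := ((Real.exp (-κ) : ℝ) : ℂ) with he
  have he0 : e ≠ 0 := by
    rw [he]
    exact_mod_cast (Real.exp_pos _).ne'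
  have hen : ‖e‖ = Real.exp (-κ) := by
    rw [he, Complex.norm_real, Real.norm_eq_abs, Real.abs_exp]
  -- the words
  have hX' : ∀ g : G, ∃ X : CF (Ω := Ω) b L, g ∈ F →
      IsW b g (fun ω => e * a g ω) (fun ω => ev b L ω X) := by
    intro g
    by_cases hg : g ∈ F
    · obtain ⟨X, hX⟩ := hWRD G Ω H b L hL (fun h => (herg.mp h).measurable) g
        (fun ω => e * a g ω) (Real.exp (-κ) * R) ((ham g hg).const_mul e) (fun ω => by
          rw [norm_mul, hen]
          exact mul_le_mul_of_nonneg_left (haR g hg ω) (Real.exp_pos _).le)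
      exact ⟨X, fun _ => hX⟩
    · exact ⟨0, fun h => absurd h hg⟩
  choose X hX using hX'
  set T' : CF (Ω := Ω) b L := ∑ g ∈ F, X g with hT'
  have hev : ∀ ω, ev b L ω T' = e • T ω := by
    intro ω
    refine clm_ext b _ _ fun k => ?_
    rw [hT', map_sum, _root_.sum_apply, _root_.smul_apply, hT, Finset.smul_sum]
    refine Finset.sum_congr rfl fun g hg => ?_
    have := hX g hg ω k
    simp only at this
    rw [this, smul_smul]
  have hmain := hABS Ω P G H (CF (Ω := Ω) b L) (tau P b L) (fun ω => ev b L ω) (fun k => b k) (b 1)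
    (hTR G Ω H P b L hL herg.mp) (b.orthonormal.1 1) (total b)
    (fun A => (hN2 G Ω H P b L hL herg.mp A).1)
    (fun A => ⟨ev_int P b L A _ _, tau_apply P b L A⟩)
    (fun A k => ⟨((hN2 G Ω H P b L hL herg.mp A).2 k).1,
      ((hN2 G Ω H P b L hL herg.mp A).2 k).2.le⟩)
    (fun B R hB => hERG G Ω H P b L hL herg B R hB) T' ?_
  · filter_upwards [hmain] with ω hω
    rw [hev ω] at hω
    exact hasHyp_of_smul _ _ hω
  · intro k δ _ hδ
    have hlog : ∀ᵐ ω ∂P, Real.log ‖e * a g₀ ω‖ = -κ + Real.log ‖a g₀ ω‖ := by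
      filter_upwards [hane] with ω hω
      rw [norm_mul, hen, Real.log_mul (Real.exp_pos _).ne' (norm_ne_zero_iff.2 hω), Real.log_exp]
    have h1 := hDET G Ω H P b L hL herg.mp χ hχ F (fun g ω => e * a g ω) g₀ hg₀ hpos hlt X
      hX ((ham g₀ hg₀).const_mul e) (by
        filter_upwards [hane] with ω hω
        exact mul_ne_zero he0 hω) (by
        refine Integrable.congr ((integrable_const (-κ)).add haint) ?_
        filter_upwards [hlog] with ω hω
        simp only [Pi.add_apply]
        rw [hω]) (tau P b L T') k δ hδ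
    refine le_trans (le_of_eq ?_) h1
    have h2 : ∫ ω, Real.log ‖e * a g₀ ω‖ ∂P = 0 := by
      rw [integral_congr_ae hlog, integral_add (integrable_const _) haint, integral_const]
      simp [hκ]
    rw [h2, mul_zero]

end Pool.Agent.W253.RO
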